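import Pool.Agent.Helper67.DF.Stmts
import Pool.Agent.Helper67.BT.Basic2

/-!
Project DF, row DID: the identity.
-/

open Finset MeasureTheory

namespace Pool.Agent.Helper25.DF

open Pool.Agent.Helper67.DF
open Pool.Agent.Helper67.BT (E PG Sp PG_const PG_add PG_neg PG_sub PG_mul PG_const_mul PG_pow PG_sum
  PG_inner PG_inner')

variable {n k : ℕ}

theorem AA_apply (s v : Fin n → ℝ) (a : Fin n → E k) (x : E k) :
    AA s v a x = ∑ l, (s l * v l * inner ℝ (a l) x) • a l := by
  simp [AA, LinearMap.sum_apply, smul_smul]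

theorem AA_symm (s v : Fin n → ℝ) (a : Fin n → E k) (x y : E k) :
    inner ℝ (AA s v a x) y = inner ℝ x (AA s v a y) := by
  rw [AA_apply, AA_apply, sum_inner, inner_sum]
  refine sum_congr rfl fun l _ => ?_
  rw [real_inner_smul_left, real_inner_smul_right, real_inner_comm x (a l)]
  ring

theorem PG_lin (A : E k →ₗ[ℝ] E k) (e : E k) : PG (fun x => inner ℝ e (A x)) := by
  have h : (fun x => inner ℝ e (A x)) = fun x => inner ℝ (LinearMap.adjoint A e) x := by
    funext x
    rw [LinearMap.adjoint_inner_left]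
  rw [h]
  exact PG_inner _

theorem lineDeriv (a : Fin n → E k) (g : ℝ → ℝ) (g' : ℝ) (l : Fin n) (x v : E k)
    (h : HasDerivAt g g' (inner ℝ (a l) x)) :
    HasDerivAt (fun t : ℝ => g (inner ℝ (a l) (x + t • v))) (g' * inner ℝ (a l) v) 0 := by
  have h1 : HasDerivAt (fun t : ℝ => inner ℝ (a l) (x + t • v)) (inner ℝ (a l) v) 0 := by
    have h2 : (fun t : ℝ => (inner ℝ (a l) (x + t • v) : ℝ)) =
        fun t : ℝ => inner ℝ (a l) x + t * inner ℝ (a l) v := by
      funext t
      rw [inner_add_right, real_inner_smul_right]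
    rw [h2]
    simpa using ((hasDerivAt_id (0 : ℝ)).mul_const (inner ℝ (a l) v)).const_add (inner ℝ (a l) x)
  have h3 : HasDerivAt g g' (inner ℝ (a l) (x + (0 : ℝ) • v)) := by simpa using h
  exact HasDerivAt.comp (0 : ℝ) h3 h1

theorem linD (e : E k) (A : E k →ₗ[ℝ] E k) (x v : E k) :
    HasDerivAt (fun t : ℝ => inner ℝ e (A (x + t • v))) (inner ℝ e (A v)) 0 := by
  have h2 : (fun t : ℝ => (inner ℝ e (A (x + t • v)) : ℝ)) =
      fun t : ℝ => inner ℝ e (A x) + t * inner ℝ e (A v) := by
    funext t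
    rw [map_add, map_smul, inner_add_right, real_inner_smul_right]
  rw [h2]
  simpa using ((hasDerivAt_id (0 : ℝ)).mul_const (inner ℝ e (A v))).const_add (inner ℝ e (A x))

theorem st_DID (hIBM : ST_IBM) (hUC : ST_UC) (hIG : ST_IG) : ST_DID := by
  intro n k a c s v hP
  have hU := hUC n c hP.c0
  obtain ⟨δ₀, hδ₀, hG⟩ := hIG n k a hP.sp (2 * c) (by linarith [hP.c0])
  obtain ⟨-, -, -, hPG, hInt, hZ⟩ := hG _ _ _ _ _ hU
  have hI := hIBM n k a _ _ _ _ _ _ hP.sp hU (AA s v a)
  set A := AA s v a with hA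
  set U : Fin n → ℝ → ℝ := cf (Uc c) with hUd
  set Z := J a U (fun _ => 1) with hZd
  have hPg : ∀ l, PG (fun x : E k => Pc c (inner ℝ (a l) x)) := fun l => (hPG l).1
  have hWg : ∀ l, PG (fun x : E k => Wc c (inner ℝ (a l) x)) := fun l => (hPG l).2.1
  have hy : ∀ l, PG (fun x : E k => (inner ℝ (a l) x : ℝ)) := fun l => PG_inner _
  have hz : ∀ l, PG (fun x : E k => (inner ℝ (a l) (A x) : ℝ)) := fun l => PG_lin A _
  -- linearity
  have Jadd : ∀ F G : E k → ℝ, PG F → PG G → J a U (fun x => F x + G x) = J a U F + J a U G := by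
    intro F G hF hG
    unfold J
    rw [← integral_add (hInt F hF) (hInt G hG)]
    refine integral_congr_ae (Filter.Eventually.of_forall fun x => ?_)
    simp only
    ring
  have Jmul : ∀ (b : ℝ) (F : E k → ℝ), J a U (fun x => b * F x) = b * J a U F := by
    intro b F
    unfold J
    rw [← integral_const_mul]
    refine integral_congr_ae (Filter.Eventually.of_forall fun x => ?_)
    simp only
    ring
  -- the functions
  set h : E k → ℝ := fun x => ∑ l, v l * (inner ℝ (a l) x * Pc c (inner ℝ (a l) x)) with hh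
  set d : E k → ℝ := fun x => ∑ l, Pc c (inner ℝ (a l) x) * inner ℝ (a l) (A x) with hd
  set Dh : E k → E k := fun x => ∑ l, (v l * (Pc c (inner ℝ (a l) x) +
    inner ℝ (a l) x * Wc c (inner ℝ (a l) x))) • a l with hDh
  set Dd : E k → E k := fun x => ∑ l, ((Wc c (inner ℝ (a l) x) * inner ℝ (a l) (A x)) • a l +
    Pc c (inner ℝ (a l) x) • A (a l)) with hDd
  have hhg : PG h := PG_sum _ fun l _ => PG_const_mul _ (PG_mul (hy l) (hPg l))
  have hdg : PG d := PG_sum _ fun l _ => PG_mul (hPg l) (hz l)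
  have iDh : ∀ x w, inner ℝ (Dh x) w = ∑ l, (v l * (Pc c (inner ℝ (a l) x) +
      inner ℝ (a l) x * Wc c (inner ℝ (a l) x))) * inner ℝ (a l) w := by
    intro x w
    rw [hDh]
    simp only
    rw [sum_inner]
    exact sum_congr rfl fun l _ => real_inner_smul_left _ _ _
  have iDd : ∀ x w, inner ℝ (Dd x) w = ∑ l, ((Wc c (inner ℝ (a l) x) * inner ℝ (a l) (A x)) *
      inner ℝ (a l) w + Pc c (inner ℝ (a l) x) * inner ℝ (a l) (A w)) := by
    intro x w
    rw [hDd]
    simp only
    rw [sum_inner]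
    refine sum_congr rfl fun l _ => ?_
    rw [inner_add_left, real_inner_smul_left, real_inner_smul_left, hA, AA_symm]
  have e1 : J a U d = LinearMap.trace ℝ (E k) A * Z := by
    have := hI (fun _ => 1) (fun _ => 0) (PG_const 1) (fun w => by simpa using PG_const (k := k) 0)
      (fun x w => by simpa [HasLineDerivAt] using hasDerivAt_const (0 : ℝ) (1 : ℝ))
    simp only [one_mul, inner_zero_left] at this
    have h0 : J a U (fun _ : E k => (0 : ℝ)) = 0 := by simp [J]
    rw [h0, add_zero] at this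
    exact this
  have e2 : J a U (fun x => h x * d x) = LinearMap.trace ℝ (E k) A * J a U h +
      J a U (fun x => inner ℝ (Dh x) (A x)) := by
    refine hI h Dh hhg (fun w => ?_) (fun x w => ?_)
    · simp only [iDh]
      exact PG_sum _ fun l _ => PG_mul (PG_const_mul _ (PG_add (hPg l) (PG_mul (hy l) (hWg l))))
        (PG_const _)
    · rw [iDh]
      unfold HasLineDerivAt
      have : ∀ l, HasDerivAt (fun t : ℝ => v l * (inner ℝ (a l) (x + t • w) *
          Pc c (inner ℝ (a l) (x + t • w)))) ((v l * (Pc c (inner ℝ (a l) x) +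
          inner ℝ (a l) x * Wc c (inner ℝ (a l) x))) * inner ℝ (a l) w) 0 := by
        intro l
        have q : HasDerivAt (fun u : ℝ => v l * (u * Pc c u)) (v l * (1 * Pc c (inner ℝ (a l) x) +
            inner ℝ (a l) x * Wc c (inner ℝ (a l) x))) (inner ℝ (a l) x) :=
          ((hasDerivAt_id _).mul (hU.dp l _)).const_mul _
        have := lineDeriv a _ _ l x w q
        rw [one_mul] at this
        exact this
      simpa only [hh] using HasDerivAt.fun_sum fun l (_ : l ∈ univ) => this l
  have e3 : J a U (fun x => d x * d x) = LinearMap.trace ℝ (E k) A * J a U d +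
      J a U (fun x => inner ℝ (Dd x) (A x)) := by
    refine hI d Dd hdg (fun w => ?_) (fun x w => ?_)
    · simp only [iDd]
      exact PG_sum _ fun l _ => PG_add (PG_mul (PG_mul (hWg l) (hz l)) (PG_const _))
        (PG_mul (hPg l) (PG_const _))
    · rw [iDd]
      unfold HasLineDerivAt
      have : ∀ l, HasDerivAt (fun t : ℝ => Pc c (inner ℝ (a l) (x + t • w)) *
          inner ℝ (a l) (A (x + t • w))) ((Wc c (inner ℝ (a l) x) * inner ℝ (a l) (A x)) *
          inner ℝ (a l) w + Pc c (inner ℝ (a l) x) * inner ℝ (a l) (A w)) 0 := by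
        intro l
        have q1 := lineDeriv a _ _ l x w (hU.dp l (inner ℝ (a l) x))
        have q2 := linD (a l) A x w
        have q := q1.mul q2
        simp only [zero_smul, add_zero] at q
        refine q.congr_deriv ?_
        simp only [cf]
        ring
      simpa only [hd] using HasDerivAt.fun_sum fun l (_ : l ∈ univ) => this l
  -- `rr = h - d`
  have ey : ∀ l x, inner ℝ (nv s v a l) x = v l * inner ℝ (a l) x - inner ℝ (a l) (A x) := by
    intro l x
    rw [nv, inner_sub_left, real_inner_smul_left, AA_symm]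
  have em : ∀ l x, inner ℝ (mv s v a l) x = v l * (v l * inner ℝ (a l) x -
      inner ℝ (a l) (A x)) - (v l * inner ℝ (a l) (A x) - inner ℝ (a l) (A (A x))) := by
    intro l x
    rw [mv, inner_sub_left, real_inner_smul_left, ey, AA_symm, ey]
  have er : rr c s v a = fun x => h x - d x := by
    funext x
    rw [rr, hh, hd]
    simp only
    rw [← sum_sub_distrib]
    refine sum_congr rfl fun l _ => ?_
    rw [ey]
    ring
  set S : E k → ℝ := fun x => ∑ l, v l ^ 2 * (inner ℝ (a l) x * Pc c (inner ℝ (a l) x) +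
    inner ℝ (a l) x ^ 2 * Wc c (inner ℝ (a l) x)) with hS
  set L : E k → ℝ := fun x => ∑ l, Wc c (inner ℝ (a l) x) * inner ℝ (nv s v a l) x ^ 2 with hL
  set Q : E k → ℝ := fun x => ∑ l, Pc c (inner ℝ (a l) x) * inner ℝ (mv s v a l) x with hQ
  have hLg : PG L := PG_sum _ fun l _ => PG_mul (hWg l) (PG_pow (PG_inner _) 2)
  have hQg : PG Q := PG_sum _ fun l _ => PG_mul (hPg l) (PG_inner _)
  have hHg : PG (fun x => inner ℝ (Dh x) (A x)) := by
    simp only [iDh]
    exact PG_sum _ fun l _ => PG_mul (PG_const_mul _ (PG_add (hPg l) (PG_mul (hy l) (hWg l))))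
      (hz l)
  have hDg : PG (fun x => inner ℝ (Dd x) (A x)) := by
    simp only [iDd]
    exact PG_sum _ fun l _ => PG_add (PG_mul (PG_mul (hWg l) (hz l)) (hz l))
      (PG_mul (hPg l) (PG_lin (A.comp A) (a l)))
  have pw : ∀ x, S x + inner ℝ (Dd x) (A x) = (L x + Q x) + 2 * inner ℝ (Dh x) (A x) := by
    intro x
    rw [iDh, iDd, hS, hL, hQ]
    simp only
    rw [← sum_add_distrib, ← sum_add_distrib, mul_sum, ← sum_add_distrib]
    refine sum_congr rfl fun l _ => ?_
    rw [em, ey]
    ring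
  have hSg : PG S := PG_sum _ fun l _ => PG_const_mul _ (PG_add (PG_mul (hy l) (hPg l))
    (PG_mul (PG_pow (hy l) 2) (hWg l)))
  have e4 : J a U S + J a U (fun x => inner ℝ (Dd x) (A x)) = (J a U L + J a U Q) +
      2 * J a U (fun x => inner ℝ (Dh x) (A x)) := by
    rw [← Jadd _ _ hSg hDg, ← Jadd _ _ hLg hQg, ← Jmul, ← Jadd _ _ (PG_add hLg hQg)
      (PG_const_mul 2 hHg)]
    congr 1
    funext x
    exact pw x
  have e5 : J a U (fun x => rr c s v a x ^ 2) = J a U (fun x => h x ^ 2) +
      (-2) * J a U (fun x => h x * d x) + J a U (fun x => d x * d x) := by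
    rw [← Jmul, ← Jadd _ _ (PG_pow hhg 2) (PG_const_mul _ (PG_mul hhg hdg)), ← Jadd _ _
      (PG_add (PG_pow hhg 2) (PG_const_mul _ (PG_mul hhg hdg))) (PG_mul hdg hdg), er]
    congr 1
    funext x
    ring
  have e6 : J a U (rr c s v a) = J a U h + (-1) * J a U d := by
    rw [← Jmul, ← Jadd _ _ hhg (PG_const_mul _ hdg), er]
    congr 1
    funext x
    ring
  unfold Av
  rw [e5, e6, e2, e3, e1]
  have hZ' : Z ≠ 0 := hZ.ne'
  have hSe : J a U S = (J a U L + J a U Q) + 2 * J a U (fun x => inner ℝ (Dh x) (A x)) -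
      J a U (fun x => inner ℝ (Dd x) (A x)) := by linarith
  rw [hSe, ← hZd]
  have e7 : (J a U fun x => (∑ l, v l * (inner ℝ (a l) x * Pc c (inner ℝ (a l) x))) ^ 2) =
      J a U (fun x => h x ^ 2) := rfl
  rw [e7]
  clear_value Z
  generalize J a U (fun x => h x ^ 2) = X1
  generalize J a U h = X2
  generalize J a U L = X3
  generalize J a U Q = X4
  generalize (J a U fun x => inner ℝ (Dh x) (A x)) = X5
  generalize (J a U fun x => inner ℝ (Dd x) (A x)) = X6
  generalize LinearMap.trace ℝ (E k) A = X7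
  field_simp
  ring

end Pool.Agent.Helper25.DF
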