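import Pool.Agent.Helper67.DF.Stmts

/-!
Project DF, row GAM: numerical values of the Gamma function.
-/

open Finset Real

namespace Pool.Agent.Helper25.DF

open Pool.Agent.Helper67.DF

/-- products of arithmetic progressions -/
def pr (a : ℕ) (n : ℕ) : ℕ := Nat.rec 1 (fun k r => r * (5 * k + a)) n

theorem pr_succ (a n : ℕ) : pr a (n + 1) = pr a n * (5 * n + a) := rfl

theorem pr_eq (a n : ℕ) : (∏ m ∈ range n, ((a : ℝ) / 5 + m)) = pr a n / 5 ^ n := by
  induction n with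
  | zero => simp [pr]
  | succ n ih =>
    rw [prod_range_succ, ih, pr_succ]
    push_cast
    rw [pow_succ]
    field_simp
    ring

theorem feq {y : ℝ} (hy : 0 < y) : (Real.log ∘ Real.Gamma) (y + 1) =
    (Real.log ∘ Real.Gamma) y + Real.log y := by
  rw [Function.comp_apply, Gamma_add_one hy.ne', log_mul hy.ne' (Gamma_pos_of_pos hy).ne',
    add_comm, Function.comp_apply]

theorem prod_pos' (x : ℝ) (hx : 0 < x) (n : ℕ) : 0 < ∏ m ∈ range n, (x + m) :=
  prod_pos fun m _ => by positivity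

theorem sum_log (x : ℝ) (hx : 0 < x) (n : ℕ) :
    ∑ m ∈ range n, Real.log (x + m) = Real.log (∏ m ∈ range n, (x + m)) := by
  rw [Real.log_prod]
  intro m _
  positivity

theorem lower (x : ℝ) (hx : 0 < x) (n : ℕ) (hn : n ≠ 0) (c : ℝ) (hc : 0 < c)
    (hcl : x * Real.log n = Real.log c) :
    c * (n.factorial : ℝ) / ∏ m ∈ range (n + 1), (x + m) ≤ Gamma x := by
  have h := BohrMollerup.ge_logGammaSeq convexOn_log_Gamma (fun {y} hy => feq hy) hx hn
  have hf : (0 : ℝ) < (n.factorial : ℝ) := by positivity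
  have hp := prod_pos' x hx (n + 1)
  rw [BohrMollerup.logGammaSeq, hcl, sum_log x hx, ← Real.log_mul hc.ne' hf.ne',
    ← Real.log_div (mul_pos hc hf).ne' hp.ne'] at h
  simp only [Function.comp_apply, Gamma_one, log_one, zero_add] at h
  exact (Real.log_le_log_iff (div_pos (mul_pos hc hf) hp) (Gamma_pos_of_pos hx)).1 h

theorem upper (x : ℝ) (hx : 0 < x) (hx1 : x ≤ 1) (n : ℕ) (c : ℝ) (hc : 0 < c)
    (hcl : x * Real.log (n + 1) = Real.log c) :
    Gamma x ≤ c * (n.factorial : ℝ) / ∏ m ∈ range (n + 1), (x + m) := by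
  have h := BohrMollerup.le_logGammaSeq convexOn_log_Gamma (fun {y} hy => feq hy) hx hx1 n
  have hf : (0 : ℝ) < (n.factorial : ℝ) := by positivity
  have hp := prod_pos' x hx (n + 1)
  rw [BohrMollerup.logGammaSeq, hcl, sum_log x hx] at h
  simp only [Function.comp_apply, Gamma_one, log_one, zero_add] at h
  have e : Real.log c - x * Real.log n + (x * Real.log n + Real.log (n.factorial : ℝ) -
      Real.log (∏ m ∈ range (n + 1), (x + m))) =
      Real.log (c * (n.factorial : ℝ) / ∏ m ∈ range (n + 1), (x + m)) := by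
    rw [Real.log_div (mul_pos hc hf).ne' hp.ne', Real.log_mul hc.ne' hf.ne']
    ring
  rw [e] at h
  exact (Real.log_le_log_iff (Gamma_pos_of_pos hx) (div_pos (mul_pos hc hf) hp)).1 h

theorem log1024 : Real.log 1024 = 5 * Real.log 4 := by
  rw [show (1024 : ℝ) = 4 ^ 5 by norm_num, Real.log_pow]
  norm_num

theorem log16 : Real.log 16 = 2 * Real.log 4 := by
  rw [show (16 : ℝ) = 4 ^ 2 by norm_num, Real.log_pow]
  norm_num

theorem pr_pos (a n : ℕ) (ha : 0 < a) : 0 < pr a n := by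
  induction n with
  | zero => exact Nat.one_pos
  | succ n ih => rw [pr_succ]; positivity

theorem genlo (a n u v : ℕ) (c w : ℝ) (ha : 0 < a) (hn : n ≠ 0) (hw : 0 < w) (hc : 0 < c)
    (hv : (v : ℝ) = w * c) (hcl : ((a : ℝ) / 5) * Real.log n = Real.log c)
    (h : u * pr a (n + 1) ≤ v * (n.factorial * 5 ^ (n + 1))) :
    (u : ℝ) / w ≤ Gamma ((a : ℝ) / 5) := by
  refine le_trans ?_ (lower ((a : ℝ) / 5) (by positivity) n hn c hc hcl)
  rw [pr_eq]
  have hp : (0 : ℝ) < pr a (n + 1) := Nat.cast_pos.2 (pr_pos a (n + 1) ha)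
  have hk : ((u * pr a (n + 1) : ℕ) : ℝ) ≤ ((v * (n.factorial * 5 ^ (n + 1)) : ℕ) : ℝ) :=
    Nat.cast_le.2 h
  push_cast at hk
  rw [hv] at hk
  rw [div_div_eq_mul_div, div_le_div_iff₀ hw hp]
  linarith

theorem genup (a n u v : ℕ) (c w : ℝ) (ha : 0 < a) (ha5 : a ≤ 5) (hw : 0 < w) (hc : 0 < c)
    (hv : (v : ℝ) = w * c) (hcl : ((a : ℝ) / 5) * Real.log (n + 1) = Real.log c)
    (h : v * (n.factorial * 5 ^ (n + 1)) ≤ u * pr a (n + 1)) :
    Gamma ((a : ℝ) / 5) ≤ (u : ℝ) / w := by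
  have h5 : (a : ℝ) / 5 ≤ 1 := by
    rw [div_le_one (by norm_num)]
    exact_mod_cast ha5
  refine le_trans (upper ((a : ℝ) / 5) (by positivity) h5 n c hc hcl) ?_
  rw [pr_eq]
  have hp : (0 : ℝ) < pr a (n + 1) := Nat.cast_pos.2 (pr_pos a (n + 1) ha)
  have hk : ((v * (n.factorial * 5 ^ (n + 1)) : ℕ) : ℝ) ≤ ((u * pr a (n + 1) : ℕ) : ℝ) :=
    Nat.cast_le.2 h
  push_cast at hk
  rw [hv] at hk
  rw [div_div_eq_mul_div, div_le_div_iff₀ hp hw]
  linarith

theorem nat1 : 45903 * pr 1 (1024 + 1) ≤ 40000 * (Nat.factorial 1024 * 5 ^ (1024 + 1)) := by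
  decide +kernel

theorem nat2 : 40000 * (Nat.factorial 1023 * 5 ^ (1023 + 1)) ≤ 45913 * pr 1 (1023 + 1) := by
  decide +kernel

theorem nat3 : 221755 * pr 2 (1024 + 1) ≤ 1600000 * (Nat.factorial 1024 * 5 ^ (1024 + 1)) := by
  decide +kernel

theorem nat4 : 1600000 * (Nat.factorial 1023 * 5 ^ (1023 + 1)) ≤ 221843 * pr 2 (1023 + 1) := by
  decide +kernel

theorem G1lo : 45903 / 10000 ≤ Gamma (1 / 5) := by
  have h := genlo 1 1024 45903 40000 4 10000 (by norm_num) (by norm_num) (by norm_num)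
    (by norm_num) (by norm_num) (by push_cast; rw [log1024]; ring) nat1
  push_cast at h
  exact h

theorem G1up : Gamma (1 / 5) ≤ 45913 / 10000 := by
  have h := genup 1 1023 45913 40000 4 10000 (by norm_num) (by norm_num) (by norm_num)
    (by norm_num) (by norm_num) (by
      push_cast
      rw [show (1023 : ℝ) + 1 = 1024 by norm_num, log1024]
      ring) nat2
  push_cast at h
  exact h

theorem G2lo : 221755 / 100000 ≤ Gamma (2 / 5) := by
  have h := genlo 2 1024 221755 1600000 16 100000 (by norm_num) (by norm_num) (by norm_num)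
    (by norm_num) (by norm_num) (by push_cast; rw [log1024, log16]; ring) nat3
  push_cast at h
  exact h

theorem G2up : Gamma (2 / 5) ≤ 221843 / 100000 := by
  have h := genup 2 1023 221843 1600000 16 100000 (by norm_num) (by norm_num) (by norm_num)
    (by norm_num) (by norm_num) (by
      push_cast
      rw [show (1023 : ℝ) + 1 = 1024 by norm_num, log1024, log16]
      ring) nat4
  push_cast at h
  exact h

theorem s5 : 2.23606 ≤ √5 ∧ √5 ≤ 2.23607 := by
  constructor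
  · apply Real.le_sqrt_of_sq_le
    norm_num
  · rw [Real.sqrt_le_left (by norm_num)]
    norm_num

theorem sinb : 0.58778 ≤ Real.sin (π / 5) ∧ Real.sin (π / 5) ≤ 0.58779 := by
  have h0 : 0 < Real.sin (π / 5) := Real.sin_pos_of_pos_of_lt_pi (by positivity)
    (by linarith [Real.pi_pos])
  have h1 : Real.sin (π / 5) ^ 2 = (5 - √5) / 8 := by
    rw [Real.sin_sq, Real.cos_pi_div_five]
    have := Real.sq_sqrt (show (0 : ℝ) ≤ 5 by norm_num)
    ring_nf
    rw [this]
    ring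
  obtain ⟨a, b⟩ := s5
  constructor
  · apply le_of_sq_le_sq _ h0.le
    rw [h1]
    norm_num at *
    linarith
  · apply le_of_sq_le_sq _ (by norm_num)
    rw [h1]
    norm_num at *
    linarith

theorem cos2 : Real.cos (2 * π / 5) = (√5 - 1) / 4 := by
  rw [show 2 * π / 5 = 2 * (π / 5) by ring, Real.cos_two_mul, Real.cos_pi_div_five]
  have := Real.sq_sqrt (show (0 : ℝ) ≤ 5 by norm_num)
  ring_nf
  rw [this]
  ring

theorem sin2b : 0.95105 ≤ Real.sin (2 * π / 5) ∧ Real.sin (2 * π / 5) ≤ 0.95106 := by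
  have h0 : 0 < Real.sin (2 * π / 5) := Real.sin_pos_of_pos_of_lt_pi (by positivity)
    (by linarith [Real.pi_pos])
  have h1 : Real.sin (2 * π / 5) ^ 2 = (5 + √5) / 8 := by
    rw [Real.sin_sq, cos2]
    have := Real.sq_sqrt (show (0 : ℝ) ≤ 5 by norm_num)
    ring_nf
    rw [this]
    ring
  obtain ⟨a, b⟩ := s5
  constructor
  · apply le_of_sq_le_sq _ h0.le
    rw [h1]
    norm_num at *
    linarith
  · apply le_of_sq_le_sq _ (by norm_num)
    rw [h1]
    norm_num at *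
    linarith

theorem st_GAM : ST_GAM := by
  unfold ST_GAM
  have a1 := G1lo
  have a2 := G1up
  have b1 := G2lo
  have b2 := G2up
  obtain ⟨s1, s2⟩ := sinb
  obtain ⟨s3, s4⟩ := sin2b
  have p1 := Real.pi_gt_d4
  have p2 := Real.pi_lt_d4
  have hx : Gamma (6 / 5) = 1 / 5 * Gamma (1 / 5) := by
    rw [show (6 / 5 : ℝ) = 1 / 5 + 1 by norm_num, Gamma_add_one (by norm_num)]
  have hy : Gamma (7 / 5) = 2 / 5 * Gamma (2 / 5) := by
    rw [show (7 / 5 : ℝ) = 2 / 5 + 1 by norm_num, Gamma_add_one (by norm_num)]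
  have h8 : Gamma (8 / 5) = 3 / 5 * Gamma (3 / 5) := by
    rw [show (8 / 5 : ℝ) = 3 / 5 + 1 by norm_num, Gamma_add_one (by norm_num)]
  have h9 : Gamma (9 / 5) = 4 / 5 * Gamma (4 / 5) := by
    rw [show (9 / 5 : ℝ) = 4 / 5 + 1 by norm_num, Gamma_add_one (by norm_num)]
  have r4 := Real.Gamma_mul_Gamma_one_sub (1 / 5)
  have r3 := Real.Gamma_mul_Gamma_one_sub (2 / 5)
  rw [show (1 : ℝ) - 1 / 5 = 4 / 5 by norm_num, show π * (1 / 5) = π / 5 by ring] at r4
  rw [show (1 : ℝ) - 2 / 5 = 3 / 5 by norm_num, show π * (2 / 5) = 2 * π / 5 by ring] at r3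
  have g4p : 0 < Gamma (4 / 5) := Gamma_pos_of_pos (by norm_num)
  have g3p : 0 < Gamma (3 / 5) := Gamma_pos_of_pos (by norm_num)
  rw [h8, h9]
  have hAd : Gamma (4 / 5) * Gamma (6 / 5) = 1 / 5 * (π / Real.sin (π / 5)) := by
    rw [hx, ← r4]
    ring
  have hBd : Gamma (3 / 5) * Gamma (7 / 5) = 2 / 5 * (π / Real.sin (2 * π / 5)) := by
    rw [hy, ← r3]
    ring
  generalize Gamma (6 / 5) = x at *
  generalize Gamma (7 / 5) = y at *
  generalize Gamma (4 / 5) = g4 at *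
  generalize Gamma (3 / 5) = g3 at *
  have x1 : 0.91806 ≤ x := by rw [hx]; norm_num at *; linarith
  have x2 : x ≤ 0.91826 := by rw [hx]; norm_num at *; linarith
  have y1 : 0.88702 ≤ y := by rw [hy]; norm_num at *; linarith
  have y2 : y ≤ 0.887372 := by rw [hy]; norm_num at *; linarith
  have hA2 : g4 * x ≤ 1.0690 := by
    rw [hAd]
    have : π / Real.sin (π / 5) ≤ 5.345 := by
      rw [div_le_iff₀ (by linarith)]
      nlinarith
    linarith
  have hA1 : 1.0689 ≤ g4 * x := by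
    rw [hAd]
    have : 5.3445 ≤ π / Real.sin (π / 5) := by
      rw [le_div_iff₀ (by linarith)]
      nlinarith
    linarith
  have hB2 : g3 * y ≤ 1.3214 := by
    rw [hBd]
    have : π / Real.sin (2 * π / 5) ≤ 3.3035 := by
      rw [div_le_iff₀ (by linarith)]
      nlinarith
    linarith
  have hB1 : 1.3212 ≤ g3 * y := by
    rw [hBd]
    have : 3.303 ≤ π / Real.sin (2 * π / 5) := by
      rw [le_div_iff₀ (by linarith)]
      nlinarith
    linarith
  have xp : 0 < x := by linarith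
  have yp : 0 < y := by linarith
  have g4u : g4 ≤ 1.16442 := by nlinarith
  have g3u : g3 ≤ 1.48972 := by nlinarith
  have g3l : 1.48888 ≤ g3 := by nlinarith
  have xx1 : 0.91806 ^ 2 ≤ x ^ 2 := by gcongr
  have xx2 : x ^ 2 ≤ 0.91826 ^ 2 := by gcongr
  have q1 : g3 * x ^ 2 ≤ 1.2562 := by
    calc g3 * x ^ 2 ≤ 1.48972 * 0.91826 ^ 2 := by gcongr
      _ ≤ 1.2562 := by norm_num
  have q2 : y / x ^ 2 ≤ 1.05285 := by
    calc y / x ^ 2 ≤ 0.887372 / 0.91806 ^ 2 := by gcongr
      _ ≤ 1.05285 := by norm_num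
  have q3 : 4 / 5 * g4 / x ^ 4 ≤ 1.31136 := by
    calc 4 / 5 * g4 / x ^ 4 ≤ 4 / 5 * 1.16442 / 0.91806 ^ 4 := by gcongr
      _ ≤ 1.31136 := by norm_num
  have q4 : 1.15375 ≤ 3 / 5 * g3 / x ^ 3 := by
    calc (1.15375 : ℝ) ≤ 3 / 5 * 1.48888 / 0.91826 ^ 3 := by norm_num
      _ ≤ 3 / 5 * g3 / x ^ 3 := by gcongr
  refine ⟨?_, ?_, ?_, ?_⟩
  · linarith
  · linarith
  · norm_num at *
    linarith
  · norm_num at *
    linarith

end Pool.Agent.Helper25.DF
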