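import Pool.Agent.Helper67.DF.Stmts
import Pool.Agent.Helper67.LB.PLn
import Pool.Agent.Helper67.BT.Basic2

/-!
Project DF, row MAR: the law of a linear form.
-/

open Finset MeasureTheory
open scoped ENNReal

namespace Pool.Agent.Helper25.DF

open Pool.Agent.Helper67.DF
open Pool.Agent.Helper67.BT (E PG Sp PG_const)

variable {n m : ℕ}

/-- coordinates -/
noncomputable def TT (b : OrthonormalBasis (Fin (m + 1)) ℝ (E (m + 1))) :
    ℝ × (Fin m → ℝ) ≃ᵐ E (m + 1) :=
  ((MeasurableEquiv.piFinSuccAbove (fun _ : Fin (m + 1) => ℝ) 0).symm.trans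
    (MeasurableEquiv.toLp 2 (Fin (m + 1) → ℝ))).trans b.repr.symm.toMeasurableEquiv

theorem TT_apply (b : OrthonormalBasis (Fin (m + 1)) ℝ (E (m + 1))) (p : ℝ × (Fin m → ℝ)) :
    TT b p = b.repr.symm (WithLp.toLp 2 ((0 : Fin (m + 1)).insertNth p.1 p.2)) := rfl

theorem TT_mp (b : OrthonormalBasis (Fin (m + 1)) ℝ (E (m + 1))) :
    MeasurePreserving (TT b) volume volume :=
  b.repr.symm.measurePreserving.comp ((PiLp.volume_preserving_toLp (Fin (m + 1))).comp
    (volume_preserving_piFinSuccAbove (fun _ : Fin (m + 1) => ℝ) 0).symm)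

theorem TT_inner (b : OrthonormalBasis (Fin (m + 1)) ℝ (E (m + 1))) (p : ℝ × (Fin m → ℝ)) :
    inner ℝ (b 0) (TT b p) = p.1 := by
  rw [← b.repr_apply_apply, TT_apply, LinearIsometryEquiv.apply_symm_apply]
  simp

theorem TT_norm (b : OrthonormalBasis (Fin (m + 1)) ℝ (E (m + 1))) (p : ℝ × (Fin m → ℝ)) :
    ‖TT b p‖ ^ 2 = p.1 ^ 2 + ∑ i, p.2 i ^ 2 := by
  rw [TT_apply, LinearIsometryEquiv.norm_map, EuclideanSpace.norm_sq_eq, Fin.sum_univ_succ]
  simp

theorem TT_lin (b : OrthonormalBasis (Fin (m + 1)) ℝ (E (m + 1))) (p q : ℝ × (Fin m → ℝ))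
    (l r : ℝ) : TT b (l • p + r • q) = l • TT b p + r • TT b q := by
  rw [TT_apply, TT_apply, TT_apply, ← map_smul, ← map_smul, ← map_add]
  congr 1
  ext i
  refine Fin.cases ?_ (fun j => ?_) i
  · simp
  · simp

theorem TT_neg (b : OrthonormalBasis (Fin (m + 1)) ℝ (E (m + 1))) (p : ℝ × (Fin m → ℝ)) :
    TT b (-p) = -TT b p := by
  have := TT_lin b p 0 (-1) 0
  simpa using this

theorem exists_basis {e : E (m + 1)} (he : e ≠ 0) :
    ∃ b : OrthonormalBasis (Fin (m + 1)) ℝ (E (m + 1)), e = ‖e‖ • b 0 := by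
  have hN : 0 < ‖e‖ := norm_pos_iff.2 he
  have ho : Orthonormal ℝ (Set.domRestrict ({0} : Set (Fin (m + 1))) fun _ => ‖e‖⁻¹ • e) := by
    constructor
    · intro i
      change ‖‖e‖⁻¹ • e‖ = 1
      rw [norm_smul, norm_inv, norm_norm, inv_mul_cancel₀ hN.ne']
    · intro i j hij
      exact absurd (Subsingleton.elim i j) hij
  obtain ⟨b, hb⟩ := ho.exists_orthonormalBasis_extension_of_card_eq (by simp)
  refine ⟨b, ?_⟩
  rw [hb 0 rfl, smul_smul, mul_inv_cancel₀ hN.ne', one_smul]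

theorem U_conv {c K α : ℝ} {U ψ w : Fin n → ℝ → ℝ} (h : PF c K α U ψ w) (l : Fin n) :
    ConvexOn ℝ Set.univ (U l) := by
  refine convexOn_of_hasDerivWithinAt2_nonneg convex_univ (f' := ψ l) (f'' := w l) ?_ ?_ ?_ ?_
  · exact fun x _ => (h.dU l x).continuousAt.continuousWithinAt
  · exact fun x _ => (h.dU l x).hasDerivWithinAt
  · exact fun x _ => (h.dp l x).hasDerivWithinAt
  · exact fun x _ => h.c0.le.trans (h.lo l x)

theorem V_conv {k : ℕ} {c K α : ℝ} {U ψ w : Fin n → ℝ → ℝ} (h : PF c K α U ψ w)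
    (a : Fin n → E k) (x y : E k) {l r : ℝ} (hl : 0 ≤ l) (hr : 0 ≤ r) (hlr : l + r = 1) :
    VV a U (l • x + r • y) ≤ l * VV a U x + r * VV a U y := by
  unfold VV
  rw [mul_sum, mul_sum, ← sum_add_distrib]
  refine sum_le_sum fun i _ => ?_
  rw [inner_add_right, real_inner_smul_right, real_inner_smul_right]
  have := (U_conv h i).2 (Set.mem_univ (inner ℝ (a i) x)) (Set.mem_univ (inner ℝ (a i) y)) hl hr hlr
  simpa using this

theorem gauss_pi {δ : ℝ} (hδ : 0 < δ) :
    Integrable (fun z : Fin m → ℝ => Real.exp (-(δ * ∑ i, z i ^ 2))) := by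
  have h : (fun z : Fin m → ℝ => Real.exp (-(δ * ∑ i, z i ^ 2))) =
      fun z => ∏ i, Real.exp (-δ * z i ^ 2) := by
    funext z
    rw [← Real.exp_sum, mul_sum, ← sum_neg_distrib]
    simp
  rw [h]
  exact Integrable.fintype_prod fun i => integrable_exp_neg_mul_sq hδ

/-- the marginal -/
noncomputable def GG (b : OrthonormalBasis (Fin (m + 1)) ℝ (E (m + 1))) (V : E (m + 1) → ℝ)
    (t : ℝ) : ℝ := ∫ z : Fin m → ℝ, Real.exp (-(V (TT b (t, z))))

section

variable (b : OrthonormalBasis (Fin (m + 1)) ℝ (E (m + 1))) {V : E (m + 1) → ℝ} {δ : ℝ}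

theorem cont_fib (hc : Continuous V) (t : ℝ) : Continuous fun z : Fin m → ℝ => V (TT b (t, z)) := by
  have h : Continuous fun z : Fin m → ℝ => TT b (t, z) := by
    have h1 : (fun z : Fin m → ℝ => TT b (t, z)) = fun z => b.repr.symm (WithLp.toLp 2
      ((0 : Fin (m + 1)).insertNth t z)) := rfl
    rw [h1]
    refine b.repr.symm.continuous.comp ((PiLp.continuous_toLp 2 _).comp ?_)
    refine continuous_pi fun i => ?_
    refine Fin.cases ?_ (fun j => ?_) i
    · simpa using continuous_const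
    · simpa using continuous_apply j
  exact hc.comp h

theorem int_fib (hδ : 0 < δ) (hc : Continuous V) (hV : ∀ x, V 0 + δ * ‖x‖ ^ 2 ≤ V x) (t : ℝ) :
    Integrable fun z : Fin m → ℝ => Real.exp (-(V (TT b (t, z)))) := by
  refine Integrable.mono' ((gauss_pi hδ).const_mul (Real.exp (-(V 0))))
    ((cont_fib b hc t).neg.rexp).aestronglyMeasurable (Filter.Eventually.of_forall fun z => ?_)
  rw [Real.norm_of_nonneg (Real.exp_pos _).le, ← Real.exp_add]
  apply Real.exp_le_exp.2
  have h1 := hV (TT b (t, z))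
  rw [TT_norm] at h1
  have h2 : 0 ≤ δ * t ^ 2 := by positivity
  simp only at h1
  linarith [mul_add δ (t ^ 2) (∑ i, z i ^ 2)]

theorem GG_pos (hδ : 0 < δ) (hc : Continuous V) (hV : ∀ x, V 0 + δ * ‖x‖ ^ 2 ≤ V x) (t : ℝ) :
    0 < GG b V t := by
  unfold GG
  rw [integral_pos_iff_support_of_nonneg (fun z => (Real.exp_pos _).le) (int_fib b hδ hc hV t)]
  have : Function.support (fun z : Fin m → ℝ => Real.exp (-(V (TT b (t, z))))) = Set.univ :=
    Set.eq_univ_of_forall fun z => (Real.exp_pos _).ne'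
  rw [this]
  exact isOpen_univ.measure_pos volume ⟨0, trivial⟩

theorem GG_even (_ : Continuous V) (hev : ∀ x, V (-x) = V x) (t : ℝ) :
    GG b V (-t) = GG b V t := by
  unfold GG
  rw [← integral_neg_eq_self (fun z : Fin m → ℝ => Real.exp (-(V (TT b (t, z)))))]
  refine integral_congr_ae (Filter.Eventually.of_forall fun z => ?_)
  simp only
  rw [← hev (TT b (t, -z)), ← TT_neg]
  simp

theorem meas_V (hc : Continuous V) :
    Measurable fun p : ℝ × (Fin m → ℝ) => Real.exp (-(V (TT b p))) :=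
  Real.measurable_exp.comp ((hc.measurable.comp (TT b).measurable).neg)

theorem GG_meas (hc : Continuous V) : Measurable (GG b V) :=
  ((meas_V b hc).stronglyMeasurable.integral_prod_right').measurable

theorem GG_pl (hδ : 0 < δ) (hc : Continuous V) (hV : ∀ x, V 0 + δ * ‖x‖ ^ 2 ≤ V x)
    (hconv : ∀ x y (l r : ℝ), 0 ≤ l → 0 ≤ r → l + r = 1 →
      V (l • x + r • y) ≤ l * V x + r * V y)
    (s t l r : ℝ) (hl : 0 < l) (hr : 0 < r) (hlr : l + r = 1) :
    GG b V s ^ l * GG b V t ^ r ≤ GG b V (l * s + r * t) := by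
  have ms : ∀ u : ℝ, Measurable fun z : Fin m → ℝ =>
      ENNReal.ofReal (Real.exp (-(V (TT b (u, z))))) := fun u =>
    ((cont_fib b hc u).neg.rexp).measurable.ennreal_ofReal
  have key : ∀ u : ℝ, ∫⁻ z : Fin m → ℝ, ENNReal.ofReal (Real.exp (-(V (TT b (u, z))))) =
      ENNReal.ofReal (GG b V u) := by
    intro u
    rw [GG, ofReal_integral_eq_lintegral_ofReal (int_fib b hδ hc hV u)
      (Filter.Eventually.of_forall fun z => (Real.exp_pos _).le)]
  have h := Pool.Agent.Helper67.LB.pl_pi m (ms s) (ms t) (ms (l * s + r * t)) hl hr hlr ?_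
  · rw [key, key, key, ENNReal.ofReal_rpow_of_pos (GG_pos b hδ hc hV s),
      ENNReal.ofReal_rpow_of_pos (GG_pos b hδ hc hV t),
      ← ENNReal.ofReal_mul (Real.rpow_nonneg (GG_pos b hδ hc hV s).le _)] at h
    exact (ENNReal.ofReal_le_ofReal_iff (GG_pos b hδ hc hV _).le).1 h
  · intro x y
    rw [ENNReal.ofReal_rpow_of_pos (Real.exp_pos _), ENNReal.ofReal_rpow_of_pos (Real.exp_pos _),
      ← ENNReal.ofReal_mul (Real.rpow_nonneg (Real.exp_pos _).le _)]
    apply ENNReal.ofReal_le_ofReal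
    rw [← Real.exp_mul, ← Real.exp_mul, ← Real.exp_add]
    apply Real.exp_le_exp.2
    have e : TT b (l * s + r * t, l • x + r • y) = l • TT b (s, x) + r • TT b (t, y) := by
      rw [← TT_lin]
      rfl
    rw [e]
    have := hconv (TT b (s, x)) (TT b (t, y)) l r hl.le hr.le hlr
    linarith

theorem GG_log (hδ : 0 < δ) (hc : Continuous V) (hV : ∀ x, V 0 + δ * ‖x‖ ^ 2 ≤ V x)
    (hconv : ∀ x y (l r : ℝ), 0 ≤ l → 0 ≤ r → l + r = 1 →
      V (l • x + r • y) ≤ l * V x + r * V y)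
    (s t l r : ℝ) (hl : 0 ≤ l) (hr : 0 ≤ r) (hlr : l + r = 1) :
    l * Real.log (GG b V s) + r * Real.log (GG b V t) ≤ Real.log (GG b V (l * s + r * t)) := by
  rcases hl.eq_or_lt with h0 | hl'
  · subst h0
    have : r = 1 := by linarith
    subst this
    simp
  rcases hr.eq_or_lt with h0 | hr'
  · subst h0
    have : l = 1 := by linarith
    subst this
    simp
  have h := GG_pl b hδ hc hV hconv s t l r hl' hr' hlr
  have hs := GG_pos b hδ hc hV s
  have ht := GG_pos b hδ hc hV t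
  have h1 := Real.log_le_log (mul_pos (Real.rpow_pos_of_pos hs _) (Real.rpow_pos_of_pos ht _)) h
  rwa [Real.log_mul (Real.rpow_pos_of_pos hs _).ne' (Real.rpow_pos_of_pos ht _).ne',
    Real.log_rpow hs, Real.log_rpow ht] at h1

theorem int_iff (hδ : 0 < δ) (hc : Continuous V) (hV : ∀ x, V 0 + δ * ‖x‖ ^ 2 ≤ V x)
    {N : ℝ} {e : E (m + 1)} (he : e = N • b 0) (F : ℝ → ℝ) (hF : Measurable F) :
    (Integrable (fun t => F (N * t) * GG b V t) ↔
      Integrable fun x : E (m + 1) => F (inner ℝ e x) * Real.exp (-(V x))) ∧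
    ∫ x : E (m + 1), F (inner ℝ e x) * Real.exp (-(V x)) = ∫ t, F (N * t) * GG b V t := by
  have hin : ∀ p : ℝ × (Fin m → ℝ), inner ℝ e (TT b p) = N * p.1 := by
    intro p
    rw [he, real_inner_smul_left, TT_inner]
  have hmeas : Measurable fun p : ℝ × (Fin m → ℝ) => F (N * p.1) * Real.exp (-(V (TT b p))) :=
    (hF.comp (measurable_fst.const_mul N)).mul (meas_V b hc)
  have hI1 : (Integrable fun x : E (m + 1) => F (inner ℝ e x) * Real.exp (-(V x))) ↔
      Integrable fun p : ℝ × (Fin m → ℝ) => F (N * p.1) * Real.exp (-(V (TT b p))) := by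
    rw [← (TT_mp b).integrable_comp_emb (TT b).measurableEmbedding]
    have : ((fun x : E (m + 1) => F (inner ℝ e x) * Real.exp (-(V x))) ∘ TT b) =
        fun p => F (N * p.1) * Real.exp (-(V (TT b p))) := by
      funext p
      simp only [Function.comp_apply, hin]
    rw [this]
  have hI2 : (Integrable fun p : ℝ × (Fin m → ℝ) => F (N * p.1) * Real.exp (-(V (TT b p)))) ↔
      Integrable fun t => F (N * t) * GG b V t := by
    rw [Measure.volume_eq_prod, integrable_prod_iff hmeas.aestronglyMeasurable]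
    have hn : (fun t : ℝ => ∫ z : Fin m → ℝ, ‖F (N * (t, z).1) * Real.exp (-(V (TT b (t, z))))‖) =
        fun t => ‖F (N * t) * GG b V t‖ := by
      funext t
      simp only [norm_mul, Real.norm_of_nonneg (Real.exp_pos _).le]
      rw [integral_const_mul, Real.norm_of_nonneg (GG_pos b hδ hc hV t).le]
      rfl
    have hm2 : AEStronglyMeasurable (fun t => F (N * t) * GG b V t) volume :=
      ((hF.comp (measurable_id.const_mul N)).mul (GG_meas b hc)).aestronglyMeasurable
    rw [hn, integrable_norm_iff hm2]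
    refine ⟨fun h => h.2, fun h => ⟨Filter.Eventually.of_forall fun t => ?_, h⟩⟩
    exact (int_fib b hδ hc hV t).const_mul (F (N * t))
  refine ⟨(hI1.trans hI2).symm, ?_⟩
  by_cases hI : Integrable fun x : E (m + 1) => F (inner ℝ e x) * Real.exp (-(V x))
  · rw [← (TT_mp b).integral_comp (TT b).measurableEmbedding]
    simp only [hin]
    rw [Measure.volume_eq_prod, integral_prod _ (by
      rw [← Measure.volume_eq_prod]; exact hI1.1 hI)]
    refine integral_congr_ae (Filter.Eventually.of_forall fun t => ?_)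
    simp only
    rw [integral_const_mul]
    rfl
  · rw [integral_undef hI, integral_undef fun h => hI ((hI1.trans hI2).2 h)]

end

theorem st_MAR (hIG : ST_IG) : ST_MAR := by
  intro n k a c K α U ψ w e hsp hPF he
  obtain ⟨δ, hδ, hG⟩ := hIG n k a hsp c hPF.c0
  obtain ⟨hV, hc, hev, -, hInt, -⟩ := hG _ _ _ _ _ hPF
  obtain _ | m := k
  · exact absurd (Subsingleton.elim e 0) he
  obtain ⟨b, hb⟩ := exists_basis he
  have hN : 0 < ‖e‖ := norm_pos_iff.2 he
  set N := ‖e‖ with hNd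
  clear_value N
  have hconv : ∀ (x y : E (m + 1)) (l r : ℝ), 0 ≤ l → 0 ≤ r → l + r = 1 →
      VV a U (l • x + r • y) ≤ l * VV a U x + r * VV a U y :=
    fun x y l r hl hr hlr => V_conv hPF a x y hl hr hlr
  have hsc : ∀ F : ℝ → ℝ, (Integrable (fun t => F t * (N⁻¹ * GG b (VV a U) (N⁻¹ * t))) ↔
      Integrable (fun t => F (N * t) * GG b (VV a U) t)) ∧
      ∫ t, F (N * t) * GG b (VV a U) t = ∫ t, F t * (N⁻¹ * GG b (VV a U) (N⁻¹ * t)) := by
    intro F
    have h1 : (fun t => F (N * t) * GG b (VV a U) t) =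
        fun t => (fun u => F u * GG b (VV a U) (N⁻¹ * u)) (N * t) := by
      funext t
      simp only
      rw [← mul_assoc, inv_mul_cancel₀ hN.ne', one_mul]
    have h2 : (fun t => F t * (N⁻¹ * GG b (VV a U) (N⁻¹ * t))) =
        fun t => N⁻¹ * (F t * GG b (VV a U) (N⁻¹ * t)) := by
      funext t
      ring
    constructor
    · rw [h1, h2, integrable_comp_mul_left_iff (fun u => F u * GG b (VV a U) (N⁻¹ * u)) hN.ne',
        integrable_const_mul_iff (IsUnit.mk0 _ (inv_ne_zero hN.ne'))]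
    · rw [h1, h2, Measure.integral_comp_mul_left (fun u => F u * GG b (VV a U) (N⁻¹ * u)) N,
        integral_const_mul, smul_eq_mul, abs_of_pos (inv_pos.2 hN)]
  refine ⟨fun t => N⁻¹ * GG b (VV a U) (N⁻¹ * t), ?_, ?_, ?_, ?_, ?_, ?_⟩
  · exact ((GG_meas b hc).comp (measurable_id.const_mul _)).const_mul _
  · exact fun t => mul_pos (inv_pos.2 hN) (GG_pos b hδ hc hV _)
  · intro t
    simp only
    rw [mul_neg, GG_even b hc hev]
  · refine ⟨convex_univ, fun s _ t _ l r hl hr hlr => ?_⟩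
    simp only [smul_eq_mul]
    rw [Real.log_mul (inv_pos.2 hN).ne' (GG_pos b hδ hc hV _).ne',
      Real.log_mul (inv_pos.2 hN).ne' (GG_pos b hδ hc hV _).ne',
      Real.log_mul (inv_pos.2 hN).ne' (GG_pos b hδ hc hV _).ne']
    have h := GG_log b hδ hc hV hconv (N⁻¹ * s) (N⁻¹ * t) l r hl hr hlr
    have e1 : N⁻¹ * (l * s + r * t) = l * (N⁻¹ * s) + r * (N⁻¹ * t) := by ring
    rw [e1]
    have e2 : l * Real.log N⁻¹ + r * Real.log N⁻¹ = Real.log N⁻¹ := by
      rw [← add_mul, hlr, one_mul]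
    linarith
  · have h1 := (int_iff b hδ hc hV hb (fun _ => 1) measurable_const).1
    have h2 := (hsc fun _ => 1).1
    simp only [one_mul] at h1 h2
    exact h2.2 (h1.2 (by simpa using hInt _ (PG_const 1)))
  · intro F hF
    obtain ⟨h1, h2⟩ := int_iff b hδ hc hV hb F hF
    obtain ⟨h3, h4⟩ := hsc F
    exact ⟨h3.trans h1, h2.trans h4⟩

end Pool.Agent.Helper25.DF
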